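import Mathlib

/-!
# Project CF: the double commutant theorem for a family of semisimple representations
-/

set_option autoImplicit false

namespace Pool.Agent.N394.CF

open MonoidAlgebra

set_option linter.style.haveILetI false in
/-- **double commutant**: a family of endomorphisms of semisimple representations which commutes
with all intertwining maps is a combination of elements of the group. -/
theorem dc {L : Type} [Field L] {N : Type} [Fintype N] [DecidableEq N] (V : N → Type)
    [∀ a, AddCommGroup (V a)] [∀ a, Module L (V a)] [∀ a, FiniteDimensional L (V a)]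
    {G : Type} [Monoid G] (τ : ∀ a, G →* Module.End L (V a))
    (hss : ∀ a, ∀ S : Submodule L (V a), (∀ s, ∀ t ∈ S, τ a s t ∈ S) →
      ∃ S' : Submodule L (V a), (∀ s, ∀ t ∈ S', τ a s t ∈ S') ∧ IsCompl S S')
    (x : ∀ a, Module.End L (V a))
    (hx : ∀ (a b : N) (φ : V b →ₗ[L] V a), (∀ s t, φ (τ b s t) = τ a s (φ t)) →
      ∀ t, φ (x b t) = x a (φ t)) :
    ∃ b : G →₀ L, ∀ a v, x a v = b.sum (fun s c => c • τ a s v) := by
  classical
  letI inst : ∀ a, Module (MonoidAlgebra L G) (V a) := fun a =>
    Module.compHom (V a) (MonoidAlgebra.lift L (Module.End L (V a)) G (τ a)).toRingHom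
  have hsmul : ∀ a (r : MonoidAlgebra L G) (v : V a), r • v =
      MonoidAlgebra.lift L (Module.End L (V a)) G (τ a) r v := fun a r v => rfl
  have hτ : ∀ a (s : G) (v : V a), τ a s v = (MonoidAlgebra.single s 1 : MonoidAlgebra L G) • v := by
    intro a s v
    rw [hsmul, MonoidAlgebra.lift_single, one_smul]
  have hc : ∀ a (c : L) (v : V a), c • v = (MonoidAlgebra.single 1 c : MonoidAlgebra L G) • v := by
    intro a c v
    rw [hsmul, MonoidAlgebra.lift_single, map_one]
    rfl
  have hsum : ∀ a (r : MonoidAlgebra L G) (v : V a), r • v =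
      r.coeff.sum (fun s c => c • τ a s v) := by
    intro a r v
    rw [hsmul, MonoidAlgebra.lift_apply, Finsupp.sum, LinearMap.sum_apply]
    rfl
  haveI hsemi : ∀ a, IsSemisimpleModule (MonoidAlgebra L G) (V a) := by
    intro a
    refine @IsSemisimpleModule.mk _ _ _ _ _ ⟨fun S => ?_⟩
    -- the underlying subspace
    let S0 : Submodule L (V a) :=
      { carrier := S
        add_mem' := fun h1 h2 => S.add_mem h1 h2
        zero_mem' := S.zero_mem
        smul_mem' := fun c v hv => by
          rw [hc]
          exact S.smul_mem _ hv }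
    obtain ⟨S', hS', hcompl⟩ := hss a S0 (fun s t ht => by
      rw [hτ]
      exact S.smul_mem _ ht)
    let S1 : Submodule (MonoidAlgebra L G) (V a) :=
      { carrier := S'
        add_mem' := fun h1 h2 => S'.add_mem h1 h2
        zero_mem' := S'.zero_mem
        smul_mem' := fun r v hv => by
          rw [hsum]
          exact S'.sum_mem (fun s _ => S'.smul_mem _ (hS' s v hv)) }
    refine ⟨S1, ?_⟩
    constructor
    · rw [Submodule.disjoint_def]
      intro v h1 h2
      exact (Submodule.disjoint_def.mp hcompl.disjoint) v h1 h2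
    · rw [Submodule.codisjoint_iff_exists_add_eq]
      intro z
      exact (Submodule.codisjoint_iff_exists_add_eq.mp hcompl.codisjoint) z
  -- the module
  haveI hpi : IsSemisimpleModule (MonoidAlgebra L G) (∀ a, V a) :=
    instIsSemisimpleModuleForallOfFinite V
  have hxlin : ∀ (φ : Module.End (MonoidAlgebra L G) (∀ a, V a)) (v : ∀ a, V a) (a : N),
      x a (φ v a) = φ (fun b => x b (v b)) a := by
    intro φ v a
    let ψ : ∀ b, V b →ₗ[L] V a := fun b =>
      { toFun := fun w => φ (Pi.single b w) a
        map_add' := fun w w' => by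
          rw [Pi.single_add, map_add, Pi.add_apply]
        map_smul' := fun c w => by
          rw [hc b c w, Pi.single_smul, map_smul, Pi.smul_apply, RingHom.id_apply, ← hc] }
    have hψ : ∀ (u : ∀ b, V b), φ u a = ∑ b, ψ b (u b) := by
      intro u
      have h1 : u = ∑ b, Pi.single b (u b) := (Finset.univ_sum_single u).symm
      conv_lhs => rw [h1, map_sum, Finset.sum_apply]
      rfl
    have hcomm : ∀ b s t, ψ b (τ b s t) = τ a s (ψ b t) := by
      intro b s t
      change φ (Pi.single b (τ b s t)) a = τ a s (φ (Pi.single b t) a)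
      rw [hτ b, Pi.single_smul, map_smul, Pi.smul_apply, ← hτ]
    rw [hψ, hψ, map_sum]
    exact Finset.sum_congr rfl (fun b _ => (hx a b (ψ b) (hcomm b) (v b)).symm)
  let f : Module.End (Module.End (MonoidAlgebra L G) (∀ a, V a)) (∀ a, V a) :=
    { toFun := fun v a => x a (v a)
      map_add' := fun v v' => by
        funext a
        rw [Pi.add_apply, map_add, Pi.add_apply]
      map_smul' := fun φ v => by
        funext a
        exact hxlin φ v a }
  obtain ⟨s, hs⟩ := (Module.Finite.fg_top : (⊤ : Submodule L (∀ a, V a)).FG)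
  obtain ⟨r, hr⟩ := jacobson_density f s
  have hr' : ∀ v : ∀ a, V a, ∀ a, x a (v a) = r • v a := by
    intro v
    have hv : v ∈ Submodule.span L (s : Set (∀ a, V a)) := by rw [hs]; trivial
    induction hv using Submodule.span_induction with
    | mem m hm =>
      intro a
      exact congrFun (hr m hm) a
    | zero =>
      intro a
      rw [Pi.zero_apply, map_zero, smul_zero]
    | add u w _ _ h1 h2 =>
      intro a
      rw [Pi.add_apply, map_add, smul_add, h1, h2]
    | smul c u _ h1 =>
      intro a
      rw [Pi.smul_apply, map_smul, h1, hsmul, hsmul, map_smul]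
  refine ⟨r.coeff, fun a v => ?_⟩
  have h1 := hr' (Pi.single a v) a
  rw [Pi.single_eq_same] at h1
  rw [h1, hsum]

end Pool.Agent.N394.CF
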