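import Pool.Agent.N202.CF.Stm
import Pool.Agent.N394.CF.DC

/-!
# Project CF: a matrix which fixes all Tate tensors is in the identity component
-/

set_option autoImplicit false

namespace Pool.Agent.N394.CF

open Pool.Agent.N202.CF Matrix

section Kron

variable {ι : Type} [Fintype ι] [DecidableEq ι] {R : Type} [CommRing R]

/-- The Kronecker power of a matrix. -/
def K (n : ℕ) (x : Matrix ι ι R) : Matrix (Fin n → ι) (Fin n → ι) R :=
  fun v w => ∏ k, x (v k) (w k)

lemma K_mul (n : ℕ) (x y : Matrix ι ι R) : K n (x * y) = K n x * K n y := by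
  ext v w
  rw [Matrix.mul_apply]
  simp only [K, Matrix.mul_apply]
  rw [Finset.prod_univ_sum, Fintype.piFinset_univ]
  exact Finset.sum_congr rfl (fun u _ => Finset.prod_mul_distrib)

lemma K_one (n : ℕ) : K n (1 : Matrix ι ι R) = 1 := by
  ext v w
  rw [K, Matrix.one_apply]
  split_ifs with h
  · subst h
    exact Finset.prod_eq_one (fun k _ => Matrix.one_apply_eq _)
  · obtain ⟨k, hk⟩ := Function.ne_iff.mp h
    exact Finset.prod_eq_zero (Finset.mem_univ k) (Matrix.one_apply_ne hk)

lemma K_transpose (n : ℕ) (x : Matrix ι ι R) : K n xᵀ = (K n x)ᵀ := rfl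

lemma K_smul (n : ℕ) (c : R) (x : Matrix ι ι R) : K n (c • x) = c ^ n • K n x := by
  ext v w
  simp only [K, Matrix.smul_apply, smul_eq_mul]
  rw [Finset.prod_mul_distrib, Finset.prod_const, Finset.card_univ, Fintype.card_fin]

lemma K_map {S : Type} [CommRing S] (f : R →+* S) (n : ℕ) (x : Matrix ι ι R) :
    K n (x.map f) = (K n x).map f := by
  ext v w
  simp only [K, Matrix.map_apply, map_prod]

end Kron

section Act

variable {ι : Type} [Fintype ι] [DecidableEq ι] {L : Type} [Field L]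

lemma act_eq {n : ℕ} (g : Matrix ι ι L) (t : Tensor ι n L) : act g t = K n g *ᵥ t := rfl

/-- The tensor of a matrix. -/
def ten {m n : ℕ} (T : Matrix (Fin m → ι) (Fin n → ι) L) : Tensor ι (m + n) L :=
  fun u => T (fun k => u (Fin.castAdd n k)) (fun k => u (Fin.natAdd m k))

lemma ten_append {m n : ℕ} (T : Matrix (Fin m → ι) (Fin n → ι) L) (p : Fin m → ι)
    (q : Fin n → ι) : ten T (Fin.append p q) = T p q := by
  simp only [ten, Fin.append_left, Fin.append_right]

lemma act_ten {m n : ℕ} (x : Matrix ι ι L) (T : Matrix (Fin m → ι) (Fin n → ι) L) :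
    act x (ten T) = ten (K m x * T * (K n x)ᵀ) := by
  funext u
  change ∑ w, (∏ k, x (u k) (w k)) * ten T w = _
  rw [← (Fin.appendEquiv m n).sum_comp, Fintype.sum_prod_type]
  rw [ten, Matrix.mul_apply, Finset.sum_comm]
  apply Finset.sum_congr rfl
  intro q _
  rw [Matrix.mul_apply, Finset.sum_mul]
  apply Finset.sum_congr rfl
  intro p _
  change (∏ k, x (u k) (Fin.append p q k)) * ten T (Fin.append p q) = _
  rw [ten_append, Fin.prod_univ_add]
  simp only [Fin.append_left, Fin.append_right, K, Matrix.transpose_apply]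
  ring

lemma ten_smul {m n : ℕ} (c : L) (T : Matrix (Fin m → ι) (Fin n → ι) L) :
    ten (c • T) = c • ten T := rfl

lemma ten_inj {m n : ℕ} {T T' : Matrix (Fin m → ι) (Fin n → ι) L} (h : ten T = ten T') :
    T = T' := by
  ext p q
  rw [← ten_append T p q, ← ten_append T' p q, h]

end Act

/-- Intertwining maps with coefficients in `L` commute with `g`. -/
lemma commute_g {L Ω : Type} [Field L] [Field Ω] [Algebra L Ω] {ι : Type}
    [Fintype ι] [DecidableEq ι] {Γ : Type} [Group Γ] (ρ : Γ →* Matrix ι ι L) (χ : Γ →* L)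
    (B Q : Matrix ι ι L) (hBQ : B * Q = 1) (hform : ∀ s, ρ s * B * (ρ s)ᵀ = χ s • B)
    (hweight : ∀ (n j : ℕ) (t : Tensor ι n L), HasTwist ρ χ j t → n ≠ 2 * j → t = 0)
    (g : Matrix ι ι Ω) (c : Ω) (hg : IsUnit g.det)
    (hgB : g * B.map (algebraMap L Ω) * gᵀ = c • B.map (algebraMap L Ω))
    (hT : ∀ (m : ℕ) (t : Tensor ι (2 * m) L), HasTwist ρ χ m t →
      act g (fun v => algebraMap L Ω (t v)) = c ^ m • fun v => algebraMap L Ω (t v))
    {m n : ℕ} (Δ : Subgroup Γ) (hΔ : Δ.FiniteIndex) (M : Matrix (Fin m → ι) (Fin n → ι) L)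
    (hM : ∀ s ∈ Δ, K m (ρ s) * M = M * K n (ρ s)) :
    K m g * M.map (algebraMap L Ω) = M.map (algebraMap L Ω) * K n g := by
  have h1 : ∀ s ∈ Δ, act (ρ s) (ten (M * K n B)) = χ s ^ n • ten (M * K n B) := by
    intro s hs
    rw [act_ten, ← ten_smul]
    congr 1
    calc K m (ρ s) * (M * K n B) * (K n (ρ s))ᵀ
        = (K m (ρ s) * M) * K n B * (K n (ρ s))ᵀ := by rw [Matrix.mul_assoc (K m (ρ s)) M]
      _ = M * (K n (ρ s) * K n B * K n (ρ s)ᵀ) := by
          rw [hM s hs, K_transpose]
          simp only [Matrix.mul_assoc]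
      _ = M * K n (χ s • B) := by rw [← K_mul, ← K_mul, hform]
      _ = χ s ^ n • (M * K n B) := by rw [K_smul, Matrix.mul_smul]
  by_cases hmn : m = n
  · subst hmn
    have hT' : ∀ (k : ℕ) (t : Tensor ι k L), k = 2 * m → HasTwist ρ χ m t →
        act g (fun v => algebraMap L Ω (t v)) = c ^ m • fun v => algebraMap L Ω (t v) := by
      intro k t hk
      subst hk
      exact hT m t
    have h2 := hT' (m + m) (ten (M * K m B)) (two_mul m).symm ⟨Δ, hΔ, h1⟩
    have h3 : (fun v => algebraMap L Ω (ten (M * K m B) v)) =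
        ten ((M * K m B).map (algebraMap L Ω)) := rfl
    rw [h3, act_ten, ← ten_smul] at h2
    have h4 := ten_inj h2
    rw [Matrix.map_mul, ← K_map] at h4
    set MΩ := M.map (algebraMap L Ω) with hMΩ
    set BΩ := B.map (algebraMap L Ω) with hBΩ
    have h5 : K m g * K m BΩ * (K m g)ᵀ = c ^ m • K m BΩ := by
      rw [← K_transpose, ← K_mul, ← K_mul, hgB, K_smul]
    have h6 : (K m g * MΩ) * (K m BΩ * (K m g)ᵀ) = (MΩ * K m g) * (K m BΩ * (K m g)ᵀ) := by
      calc (K m g * MΩ) * (K m BΩ * (K m g)ᵀ) = K m g * (MΩ * K m BΩ) * (K m g)ᵀ := by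
            simp only [Matrix.mul_assoc]
        _ = c ^ m • (MΩ * K m BΩ) := h4
        _ = MΩ * (c ^ m • K m BΩ) := by rw [Matrix.mul_smul]
        _ = MΩ * (K m g * K m BΩ * (K m g)ᵀ) := by rw [h5]
        _ = (MΩ * K m g) * (K m BΩ * (K m g)ᵀ) := by simp only [Matrix.mul_assoc]
    have h7 : (K m BΩ * (K m g)ᵀ) * ((K m g⁻¹)ᵀ * K m (Q.map (algebraMap L Ω))) = 1 := by
      have e1 : (K m g)ᵀ * (K m g⁻¹)ᵀ = 1 := by
        rw [← Matrix.transpose_mul, ← K_mul, Matrix.nonsing_inv_mul g hg, K_one,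
          Matrix.transpose_one]
      have e2 : K m BΩ * K m (Q.map (algebraMap L Ω)) = 1 := by
        rw [← K_mul, hBΩ, ← Matrix.map_mul, hBQ, Matrix.map_one _ (map_zero _) (map_one _), K_one]
      calc (K m BΩ * (K m g)ᵀ) * ((K m g⁻¹)ᵀ * K m (Q.map (algebraMap L Ω)))
          = K m BΩ * ((K m g)ᵀ * (K m g⁻¹)ᵀ) * K m (Q.map (algebraMap L Ω)) := by
            simp only [Matrix.mul_assoc]
        _ = 1 := by rw [e1, Matrix.mul_one, e2]
    calc K m g * MΩ = (K m g * MΩ) * ((K m BΩ * (K m g)ᵀ) *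
          ((K m g⁻¹)ᵀ * K m (Q.map (algebraMap L Ω)))) := by rw [h7, Matrix.mul_one]
      _ = ((K m g * MΩ) * (K m BΩ * (K m g)ᵀ)) *
          ((K m g⁻¹)ᵀ * K m (Q.map (algebraMap L Ω))) := by simp only [Matrix.mul_assoc]
      _ = ((MΩ * K m g) * (K m BΩ * (K m g)ᵀ)) *
          ((K m g⁻¹)ᵀ * K m (Q.map (algebraMap L Ω))) := by rw [h6]
      _ = (MΩ * K m g) * ((K m BΩ * (K m g)ᵀ) *
          ((K m g⁻¹)ᵀ * K m (Q.map (algebraMap L Ω)))) := by simp only [Matrix.mul_assoc]
      _ = MΩ * K m g := by rw [h7, Matrix.mul_one]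
  · have h2 : ten (M * K n B) = 0 :=
      hweight (m + n) n _ ⟨Δ, hΔ, h1⟩ (by omega)
    have h3 : M * K n B = 0 := by
      ext p q
      rw [← ten_append (M * K n B) p q, h2]
      rfl
    have h4 : M = 0 := by
      calc M = M * (K n B * K n Q) := by rw [← K_mul, hBQ, K_one, Matrix.mul_one]
        _ = (M * K n B) * K n Q := by rw [Matrix.mul_assoc]
        _ = 0 := by rw [h3, Matrix.zero_mul]
    rw [h4, Matrix.map_zero _ (map_zero _), Matrix.mul_zero, Matrix.zero_mul]

/-- A monomial in the entries is an entry of a Kronecker power. -/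
lemma mono {ι : Type} [Fintype ι] [DecidableEq ι] (m : (ι × ι) →₀ ℕ) :
    ∃ (n : ℕ) (v w : Fin n → ι), ∀ (R : Type) [CommRing R] (x : Matrix ι ι R),
      m.prod (fun p e => x p.1 p.2 ^ e) = K n x v w := by
  induction m using Finsupp.induction_linear with
  | zero =>
    refine ⟨0, Fin.elim0, Fin.elim0, fun R _ x => ?_⟩
    rw [Finsupp.prod_zero_index, K]
    exact (Finset.prod_eq_one (fun k _ => Fin.elim0 k)).symm
  | add m1 m2 h1 h2 =>
    obtain ⟨n1, v1, w1, h1⟩ := h1
    obtain ⟨n2, v2, w2, h2⟩ := h2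
    refine ⟨n1 + n2, Fin.append v1 v2, Fin.append w1 w2, fun R _ x => ?_⟩
    rw [Finsupp.prod_add_index' (fun _ => pow_zero _) (fun _ _ _ => pow_add _ _ _), h1, h2]
    simp only [K, Fin.prod_univ_add, Fin.append_left, Fin.append_right]
  | single p e =>
    refine ⟨e, fun _ => p.1, fun _ => p.2, fun R _ x => ?_⟩
    have h := Finsupp.prod_single_index (a := p) (b := e)
      (h := fun (p : ι × ι) (e : ℕ) => x p.1 p.2 ^ e) (pow_zero (x p.1 p.2))
    rw [h]
    simp only [K, Finset.prod_const, Finset.card_univ, Fintype.card_fin]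

theorem ic : S_IC := by
  intro L Ω _ _ _ _ ι _ _ Γ _ ρ χ B Q hBQ hform hsemi hweight g c hg hgB hT f hf
  classical
  obtain ⟨Δ, hΔ, hvan⟩ := hf
  choose n v w hmono using (mono (ι := ι))
  -- the value of `f`
  have hval : ∀ x : Matrix ι ι Ω, val x f =
      ∑ a : {m // m ∈ f.support}, f.coeff a.1 * K (n a.1) x (v a.1) (w a.1) := by
    intro x
    rw [val, MvPolynomial.aeval_def, MvPolynomial.eval₂_eq, Finset.sum_coe_sort f.support
      (fun m => f.coeff m * K (n m) x (v m) (w m))]
    apply Finset.sum_congr rfl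
    intro m _
    rw [← hmono m Ω x]
    rfl
  let τ : ∀ a : {m // m ∈ f.support}, Δ →* Module.End L ((Fin (n a.1) → ι) → L) := fun a =>
    { toFun := fun s => (K (n a.1) (ρ s)).mulVecLin
      map_one' := by
        rw [OneMemClass.coe_one, map_one, K_one, Matrix.mulVecLin_one]
        rfl
      map_mul' := fun s s' => by
        rw [Subgroup.coe_mul, map_mul, K_mul, Matrix.mulVecLin_mul]
        rfl }
  have hτ : ∀ a s t, τ a s t = K (n a.1) (ρ s) *ᵥ t := fun a s t => rfl
  obtain ⟨J, b⟩ : ∃ J : Type, Nonempty (Module.Basis J L Ω) :=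
    ⟨_, ⟨Module.Basis.ofVectorSpace L Ω⟩⟩
  obtain ⟨b⟩ := b
  -- the coordinates of the Kronecker powers of `g`
  have hcoord : ∀ e : J, ∃ β : Δ →₀ L, ∀ a : {m // m ∈ f.support},
      b.coord e (K (n a.1) g (v a.1) (w a.1)) =
        β.sum (fun s r => r * K (n a.1) (ρ s) (v a.1) (w a.1)) := by
    intro e
    obtain ⟨β, hβ⟩ := dc (fun a : {m // m ∈ f.support} => ((Fin (n a.1) → ι) → L)) τ
      (fun a S hS => by
        obtain ⟨S', h1, h2⟩ := hsemi (n a.1) Δ hΔ S (fun s hs t ht => hS ⟨s, hs⟩ t ht)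
        exact ⟨S', fun s t ht => h1 s.1 s.2 t ht, h2⟩)
      (fun a => ((K (n a.1) g).map (b.coord e)).mulVecLin)
      (fun a a' φ hφ t => by
        have hφM : ∀ t, φ t = LinearMap.toMatrix' φ *ᵥ t := fun t =>
          (LinearMap.toMatrix'_mulVec φ t).symm
        set M := LinearMap.toMatrix' φ with hM
        have h1 : ∀ s ∈ Δ, K (n a.1) (ρ s) * M = M * K (n a'.1) (ρ s) := by
          intro s hs
          apply Matrix.ext_of_mulVec_single
          intro i
          rw [← Matrix.mulVec_mulVec, ← Matrix.mulVec_mulVec, ← hφM, ← hφM]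
          exact (hφ ⟨s, hs⟩ _).symm
        have h2 := commute_g ρ χ B Q hBQ hform hweight g c hg hgB hT Δ hΔ M h1
        have h3 : (K (n a.1) g).map (b.coord e) * M = M * (K (n a'.1) g).map (b.coord e) := by
          ext p q
          have h4 := congrArg (b.coord e) (congrFun (congrFun h2 p) q)
          rw [Matrix.mul_apply, Matrix.mul_apply, map_sum, map_sum] at h4
          rw [Matrix.mul_apply, Matrix.mul_apply]
          have e1 : ∀ (x : L) (y : Ω), b.coord e (y * algebraMap L Ω x) = b.coord e y * x := by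
            intro x y
            rw [mul_comm, ← Algebra.smul_def, map_smul, smul_eq_mul, mul_comm]
          have e2 : ∀ (x : L) (y : Ω), b.coord e (algebraMap L Ω x * y) = x * b.coord e y := by
            intro x y
            rw [← Algebra.smul_def, map_smul, smul_eq_mul]
          simp only [Matrix.map_apply] at h4 ⊢
          simp only [e1, e2] at h4
          exact h4
        change φ ((K (n a'.1) g).map (b.coord e) *ᵥ t) = (K (n a.1) g).map (b.coord e) *ᵥ φ t
        rw [hφM, hφM, Matrix.mulVec_mulVec, Matrix.mulVec_mulVec, h3])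
    refine ⟨β, fun a => ?_⟩
    have h1 := congrFun (hβ a (Pi.single (w a.1) 1)) (v a.1)
    rw [Matrix.mulVecLin_apply, Matrix.mulVec_single_one] at h1
    change b.coord e (K (n a.1) g (v a.1) (w a.1)) = _ at h1
    rw [h1, Finsupp.sum, Finset.sum_apply]
    apply Finset.sum_congr rfl
    intro s _
    rw [Pi.smul_apply, hτ, Matrix.mulVec_single_one]
    rfl
  -- each coordinate gives zero
  have hzero : ∀ e : J, ∑ a : {m // m ∈ f.support}, f.coeff a.1 *
      algebraMap L Ω (b.coord e (K (n a.1) g (v a.1) (w a.1))) = 0 := by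
    intro e
    obtain ⟨β, hβ⟩ := hcoord e
    have h1 : ∀ a : {m // m ∈ f.support}, f.coeff a.1 *
        algebraMap L Ω (b.coord e (K (n a.1) g (v a.1) (w a.1))) =
        ∑ s ∈ β.support, algebraMap L Ω (β s) *
          (f.coeff a.1 * K (n a.1) ((ρ s).map (algebraMap L Ω)) (v a.1) (w a.1)) := by
      intro a
      rw [hβ a, Finsupp.sum, map_sum, Finset.mul_sum]
      apply Finset.sum_congr rfl
      intro s _
      rw [K_map, Matrix.map_apply, map_mul]
      ring
    rw [Finset.sum_congr rfl (fun a _ => h1 a), Finset.sum_comm]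
    apply Finset.sum_eq_zero
    intro s _
    rw [← Finset.mul_sum, ← hval, hvan s.1 s.2, mul_zero]
  rw [hval]
  -- expand in the basis
  obtain ⟨A, hA⟩ : ∃ A : Finset J, ∀ a : {m // m ∈ f.support},
      (b.repr (K (n a.1) g (v a.1) (w a.1))).support ⊆ A :=
    ⟨Finset.univ.biUnion (fun a : {m // m ∈ f.support} =>
      (b.repr (K (n a.1) g (v a.1) (w a.1))).support),
      fun a => Finset.subset_biUnion_of_mem
        (fun a : {m // m ∈ f.support} => (b.repr (K (n a.1) g (v a.1) (w a.1))).support)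
        (Finset.mem_univ a)⟩
  have hexp : ∀ a : {m // m ∈ f.support}, K (n a.1) g (v a.1) (w a.1) =
      ∑ e ∈ A, algebraMap L Ω (b.coord e (K (n a.1) g (v a.1) (w a.1))) * b e := by
    intro a
    conv_lhs => rw [← b.linearCombination_repr (K (n a.1) g (v a.1) (w a.1))]
    rw [Finsupp.linearCombination_apply, Finsupp.sum_of_support_subset _ (hA a) _
      (fun i _ => zero_smul L (b i))]
    apply Finset.sum_congr rfl
    intro e _
    rw [Algebra.smul_def]
    rfl
  calc ∑ a : {m // m ∈ f.support}, f.coeff a.1 * K (n a.1) g (v a.1) (w a.1)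
      = ∑ a : {m // m ∈ f.support}, ∑ e ∈ A, b e * (f.coeff a.1 *
          algebraMap L Ω (b.coord e (K (n a.1) g (v a.1) (w a.1)))) := by
        apply Finset.sum_congr rfl
        intro a _
        conv_lhs => rw [hexp a]
        rw [Finset.mul_sum]
        apply Finset.sum_congr rfl
        intro e _
        ring
    _ = 0 := by
        rw [Finset.sum_comm]
        apply Finset.sum_eq_zero
        intro e _
        rw [← Finset.mul_sum, hzero e, mul_zero]

end Pool.Agent.N394.CF
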